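import Pool.Agent.Helper24.FF.Stmts

/-! Full list for MP_866009_co: ladders with a connector are minimal. -/

set_option autoImplicit false

namespace Pool.Agent.Helper24.FF

open Pool.Agent.Helper64.CT Pool.Agent.Helper64.DT Pool.Agent.Helper64.FL
open Pool.Agent.Helper64.HG (Ovl Model Circ IC HellyCircle ChordModel)

theorem st_LCM (h1 : ST_LG) (h2 : ST_LG1) (h3 : ST_LBC) (h4 : ST_PH) (h5 : ST_PE1)
    (h6 : ST_CEC) : ST_LCM := by
  intro V G hL z
  obtain ⟨c, h, k, M, a, b, hM, hcov, hcM, hc, hopt⟩ := hL
  have hch : c ≠ h := fun e => G.loopless.irrefl h (by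
    have := (hc h).2 (Or.inl rfl)
    rwa [e] at this)
  have hck : c ≠ k := fun e => G.loopless.irrefl k (by
    have := (hc k).2 (Or.inr rfl)
    rwa [e] at this)
  rcases hcov z with hz | hz | hz | hz
  · -- the connector
    have key : CE G ({h, k} ∪ LS M) := by
      rcases hopt with ⟨e1, e2, _⟩ | ⟨e1, e2, _⟩ | ⟨e1, e2, e3⟩
      · exact h1 V G h k M a b hM ⟨fun _ => e2, fun _ => e1⟩
      · exact h1 V G h k M a b hM ⟨fun e => absurd e e1,
          fun e => absurd e (Nat.not_even_iff_odd.2 e2)⟩
      · exact h2 V G h k M a b hM e1 e2 e3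
    refine h6 V G G _ _ key ?_ (fun _ _ _ _ _ => Iff.rfl)
    intro x hx
    have hx' : x ≠ z := hx
    rcases hcov x with e | e | e | e
    · exact absurd (e.trans hz.symm) hx'
    · exact Or.inl (Or.inl e)
    · exact Or.inl (Or.inr e)
    · exact Or.inr e
  · -- the hub `h`
    have g1 : CE G (insert k (LS M)) := h4 V G k M hM.ip hM.kM
    have g2 : CE G (insert c (insert k (LS M))) := by
      refine h5 V G _ c g1 ?_ ?_
      · rintro (e | e)
        · exact hck e
        · exact hcM e
      · have key : ∀ y ∈ insert k (LS M), G.Adj c y → y = k := by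
          intro y hy hcy
          rcases (hc y).1 hcy with e | e
          · rcases hy with e' | e'
            · exact e'
            · exact absurd (e ▸ e' : h ∈ M) hM.hM
          · exact e
        intro y hy y' hy' hcy hcy'
        rw [key y hy hcy, key y' hy' hcy']
    refine h6 V G G _ _ g2 ?_ (fun _ _ _ _ _ => Iff.rfl)
    intro x hx
    have hx' : x ≠ z := hx
    rcases hcov x with e | e | e | e
    · exact Or.inl e
    · exact absurd (e.trans hz.symm) hx'
    · exact Or.inr (Or.inl e)
    · exact Or.inr (Or.inr e)
  · -- the hub `k`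
    have g1 : CE G (insert h (LS M)) := h4 V G h M hM.ip hM.hM
    have g2 : CE G (insert c (insert h (LS M))) := by
      refine h5 V G _ c g1 ?_ ?_
      · rintro (e | e)
        · exact hch e
        · exact hcM e
      · have key : ∀ y ∈ insert h (LS M), G.Adj c y → y = h := by
          intro y hy hcy
          rcases (hc y).1 hcy with e | e
          · exact e
          · rcases hy with e' | e'
            · exact e'
            · exact absurd (e ▸ e' : k ∈ M) hM.kM
        intro y hy y' hy' hcy hcy'
        rw [key y hy hcy, key y' hy' hcy']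
    refine h6 V G G _ _ g2 ?_ (fun _ _ _ _ _ => Iff.rfl)
    intro x hx
    have hx' : x ≠ z := hx
    rcases hcov x with e | e | e | e
    · exact Or.inl e
    · exact Or.inr (Or.inl e)
    · exact absurd (e.trans hz.symm) hx'
    · exact Or.inr (Or.inr e)
  · -- a vertex of the path
    obtain ⟨M1, M2, hMM⟩ := List.append_of_mem hz
    have key := h3 V G h k z c M M1 M2 a b hM hMM hcM hc
    refine h6 V G G _ _ key ?_ (fun _ _ _ _ _ => Iff.rfl)
    intro x hx
    have hx' : x ≠ z := hx
    rcases hcov x with e | e | e | e
    · exact Or.inl e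
    · exact Or.inr (Or.inl (Or.inl (Or.inl e)))
    · exact Or.inr (Or.inl (Or.inl (Or.inr e)))
    · rw [hMM] at e
      rcases List.mem_append.1 e with e' | e'
      · exact Or.inr (Or.inl (Or.inr e'))
      · rcases List.mem_cons.1 e' with e2 | e2
        · exact absurd e2 hx'
        · exact Or.inr (Or.inr e2)

end Pool.Agent.Helper24.FF
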