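import Pool.Agent.Helper24.FF.Stmts

/-! Full list for MP_866009_co: the entries of the table are minimal. -/

set_option autoImplicit false

namespace Pool.Agent.Helper24.FF

open Pool.Agent.Helper64.CT Pool.Agent.Helper64.DT Pool.Agent.Helper64.FL
open Pool.Agent.Helper64.HG (Ovl Model Circ IC HellyCircle ChordModel)

variable {V : Type}

/-- a part at the beginning -/
theorem tmn_pre {G : SimpleGraph V} : ∀ (A B : List V), IPt G (A ++ B) → IPt G A := by
  intro A
  induction A with
  | nil => intro B _; trivial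
  | cons a A ih =>
    intro B h
    obtain ⟨h1, h2, h3, h4⟩ := h
    refine ⟨fun x hx => h1 x (List.mem_append_left _ hx), ?_, ?_, ih B h4⟩
    · intro b hb
      cases A with
      | nil => simp at hb
      | cons c A => exact h2 b (by simpa using hb)
    · intro x hx
      cases A with
      | nil => simp at hx
      | cons c A => exact h3 x (by simp at hx ⊢; exact Or.inl hx)

/-- a part at the end -/
theorem tmn_suf {G : SimpleGraph V} : ∀ (A B : List V), IPt G (A ++ B) → IPt G B := by
  intro A
  induction A with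
  | nil => intro B h; exact h
  | cons a A ih => intro B h; exact ih B h.2.2.2

/-- the two sides of a vertex -/
theorem tmn_cut {G : SimpleGraph V} (z : V) : ∀ (A B : List V), IPt G (A ++ z :: B) →
    ∀ x ∈ A, ∀ y ∈ B, x ≠ y ∧ ¬ G.Adj x y := by
  intro A
  induction A with
  | nil => intro B _ x hx; simp at hx
  | cons a A ih =>
    intro B h x hx y hy
    obtain ⟨h1, h2, h3, h4⟩ := h
    rcases List.mem_cons.1 hx with h5 | h5
    · subst h5
      refine ⟨h1 y (List.mem_append_right _ (List.mem_cons_of_mem _ hy)), h3 y ?_⟩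
      cases A with
      | nil => exact hy
      | cons c A => exact List.mem_append_right _ (List.mem_cons_of_mem _ hy)
    · exact ih B h4 x h5 y hy

/-- one more vertex at the end -/
theorem tmn_snoc {G : SimpleGraph V} (a : V) : ∀ l : List V, IPt G l → (∀ x ∈ l, x ≠ a) →
    (∀ b ∈ l.getLast?, G.Adj b a) → (∀ x ∈ l.dropLast, ¬ G.Adj x a) → IPt G (l ++ [a]) := by
  intro l
  induction l with
  | nil =>
    intro _ _ _ _
    refine ⟨?_, ?_, ?_, trivial⟩ <;> intro x hx <;> simp at hx
  | cons c l ih =>
    intro h h1 h2 h3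
    obtain ⟨g1, g2, g3, g4⟩ := h
    cases l with
    | nil =>
      refine ⟨?_, ?_, ?_, ?_, ?_, ?_, trivial⟩
      · intro x hx
        have : x = a := by simpa using hx
        rw [this]
        exact h1 c (by simp)
      · intro b hb
        have : b = a := by simpa using hb.symm
        rw [this]
        exact h2 c (by simp)
      all_goals (intro x hx; simp at hx)
    | cons d l =>
      refine ⟨?_, ?_, ?_, ?_⟩
      · intro x hx
        rcases List.mem_append.1 hx with h5 | h5
        · exact g1 x h5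
        · have : x = a := by simpa using h5
          rw [this]
          exact h1 c (by simp)
      · intro b hb
        exact g2 b (by simpa using hb)
      · intro x hx
        have hx2 : x ∈ l ++ [a] := hx
        rcases List.mem_append.1 hx2 with h5 | h5
        · exact g3 x h5
        · have : x = a := by simpa using h5
          rw [this]
          exact h3 c (by simp)
      · refine ih g4 (fun x hx => h1 x (List.mem_cons_of_mem _ hx)) ?_ ?_
        · intro b hb
          exact h2 b (by simpa using hb)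
        · intro x hx
          refine h3 x ?_
          simp only [List.dropLast_cons_cons, List.mem_cons]
          exact Or.inr hx

/-- the reversed path -/
theorem tmn_rev {G : SimpleGraph V} : ∀ l : List V, IPt G l → IPt G l.reverse := by
  intro l
  induction l with
  | nil => intro h; exact h
  | cons a l ih =>
    intro h
    obtain ⟨h1, h2, h3, h4⟩ := h
    rw [List.reverse_cons]
    refine tmn_snoc a _ (ih h4) ?_ ?_ ?_
    · intro x hx
      exact (h1 x (List.mem_reverse.1 hx)).symm
    · intro b hb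
      rw [List.getLast?_reverse] at hb
      exact (h2 b hb).symm
    · intro x hx h5
      rw [List.dropLast_reverse] at hx
      exact h3 x (List.mem_reverse.1 hx) h5.symm

theorem st_TMN (h1 : ST_TKP) (h2 : ST_TW) (h3 : ST_TOK) (h4 : ST_PEL) (h5 : ST_CEC) :
    ST_TMN := by
  intro V G D hR hE z
  obtain ⟨f, P, hW⟩ := real_iff.1 hR
  unfold okE at hE
  simp only [Bool.and_eq_true] at hE
  obtain ⟨⟨⟨⟨⟨⟨hn, hl⟩, hp⟩, hok⟩, he⟩, _⟩, _⟩ := hE
  have hl2 : D.W.length = D.T.n := Nat.eq_of_beq_eq_true hl
  obtain ⟨t1, t2, _, t4, _⟩ := h3 D.T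
  obtain ⟨t5, t6⟩ := t4 he
  have hinj : ∀ j k, j < k → k < D.T.n → f j ≠ f k := fun j k hjk hk => (hW.nm j k hjk hk).1
  have hinj2 : ∀ j k, j < D.T.n → k < D.T.n → j ≠ k → f j ≠ f k := by
    intro j k hj hk hjk
    rcases Nat.lt_or_gt_of_ne hjk with h | h
    · exact hinj j k h hk
    · exact (hinj k j h hj).symm
  have htw : ∀ i, i < D.T.n → CE (TG D.T f) {x | ∃ j, j < D.T.n ∧ j ≠ i ∧ x = f j} := by
    intro i hi
    have h6 : D.W[i]? = some (D.W[i]'(by omega)) := List.getElem?_eq_getElem (by omega)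
    exact h2 V D.T f i _ hinj (t2 D.W hok i _ h6)
  rcases hW.cov z with ⟨i, hi, hz⟩ | ⟨e0, he0, hz⟩
  · have h6 := h1 V G D.T f P {j | j ≠ i} Set.univ hW hp he
      (fun e a b _ h => absurd (Set.mem_univ e) h) (htw i hi)
    refine h5 V G G _ _ h6 ?_ (fun _ _ _ _ _ => Iff.rfl)
    intro x hx
    rcases hW.cov x with ⟨j, hj, hxj⟩ | ⟨e, he1, hx1⟩
    · refine Or.inl ⟨j, hj, ?_, hxj⟩
      intro h7
      exact hx (by rw [hxj, h7, hz])
    · exact Or.inr ⟨e, he1, Set.mem_univ e, hx1⟩
  · obtain ⟨PL, PR, hP⟩ := List.append_of_mem hz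
    obtain ⟨⟨a0, b0⟩, hab⟩ : ∃ p, D.T.el[e0]? = some p := ⟨_, List.getElem?_eq_getElem he0⟩
    obtain ⟨ha, hb, hne, hip, hpn⟩ := hW.pth e0 a0 b0 hab
    obtain ⟨_, _, _, u1, u2, u3, _⟩ := t5 e0 a0 b0 hab
    rw [hP] at hip
    have hip2 : IPt G ((f a0 :: PL) ++ z :: (PR ++ [f b0])) := by
      have h6 : f a0 :: (PL ++ z :: PR ++ [f b0]) = (f a0 :: PL) ++ z :: (PR ++ [f b0]) := by simp
      rw [← h6]
      exact hip
    have hcut := tmn_cut z _ _ hip2
    have hA1 : IPt G (f a0 :: PL) := tmn_pre _ _ hip2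
    have hA2 : IPt G (f b0 :: PR.reverse) := by
      have h6 := tmn_suf _ _ hip2
      have h7 := tmn_rev _ h6.2.2.2
      rw [List.reverse_append] at h7
      exact h7
    -- adjacency of named vertices
    have hmp : ∀ i j l, memp i j l = memp j i l := by
      intro i j l
      rw [Bool.eq_iff_iff, t1 i j l, t1 j i l]
      exact Or.comm
    have hadj : ∀ i j, i < D.T.n → j < D.T.n → G.Adj (f i) (f j) → adT D.T i j = true := by
      have key : ∀ i j, i < j → j < D.T.n → G.Adj (f i) (f j) → adT D.T i j = true := by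
        intro i j hij hj h
        unfold adT
        by_cases h6 : memp i j D.T.el = true
        · simp [h6]
        · have h7 : memp i j D.T.el = false := by simpa using h6
          have h8 := ((hW.nm i j hij hj).2 h7).1 h
          simp [h8]
      intro i j hi hj h
      rcases Nat.lt_trichotomy i j with h6 | h6 | h6
      · exact key i j h6 hj h
      · subst h6
        exact absurd h (G.loopless.irrefl _)
      · have h7 := key j i h6 hi h.symm
        unfold adT at h7 ⊢
        rw [hmp i j, hmp i j]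
        exact h7
    -- the elastic edges are disjoint
    have hdis : ∀ e c d, D.T.el[e]? = some (c, d) → e ≠ e0 →
        a0 ≠ c ∧ a0 ≠ d ∧ b0 ≠ c ∧ b0 ≠ d := by
      intro e c d hcd hee
      rcases Nat.lt_or_gt_of_ne hee with h | h
      · obtain ⟨w1, w2, w3, w4⟩ := t6 e e0 c d a0 b0 h hcd hab
        exact ⟨w1.symm, w3.symm, w2.symm, w4.symm⟩
      · exact t6 e0 e a0 b0 c d h hab hcd
    have hsep : ∀ e, e < D.T.el.length → e ≠ e0 → ∀ x ∈ P e0, ∀ y ∈ P e, x ≠ y ∧ ¬ G.Adj x y := by
      intro e he1 hee x hx y hy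
      rcases Nat.lt_or_gt_of_ne hee with h | h
      · have := hW.sep e e0 h he0 y hy x hx
        exact ⟨this.1.symm, fun h => this.2 h.symm⟩
      · exact hW.sep e0 e h he1 x hx y hy
    set S0 : Set V := {x | ∃ j, j < D.T.n ∧ j ∈ {j : ℕ | j ≠ a0 ∧ j ≠ b0} ∧ x = f j} ∪
      {x | ∃ e, e < D.T.el.length ∧ e ∈ {e : ℕ | e ≠ e0} ∧ x ∈ P e} with hS0
    have hC0 : CE G S0 := by
      refine h1 V G D.T f P _ _ hW hp he ?_ ?_
      · intro e a b hab2 hE2
        have h6 : e = e0 := by
          by_contra h
          exact hE2 h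
        rw [h6, hab] at hab2
        have h7 := Option.some.inj hab2
        have h8 : a0 = a := congrArg Prod.fst h7
        have h9 : b0 = b := congrArg Prod.snd h7
        subst h8; subst h9
        exact ⟨fun h => h.1 rfl, fun h => h.2 rfl⟩
      · refine h5 V _ _ _ _ (htw a0 ha) ?_ (fun _ _ _ _ _ => Iff.rfl)
        rintro x ⟨j, hj, hj2, hx⟩
        exact ⟨j, hj, hj2.1, hx⟩
    -- inner vertices
    have hin : ∀ x ∈ P e0, ∀ y ∈ S0, x ≠ y ∧ ¬ G.Adj x y := by
      rintro x hx y (⟨j, hj, hj2, hy⟩ | ⟨e, he1, he2, hy⟩)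
      · have h6 := hpn x hx j hj
        rw [hy]
        exact ⟨h6.1, h6.2 hj2.1 hj2.2⟩
      · exact hsep e he1 he2 x hx y hy
    -- the ends
    have hend : ∀ m, (m = a0 ∨ m = b0) → ∀ y ∈ S0, f m ≠ y ∧ (G.Adj (f m) y →
        ∃ j, j < D.T.n ∧ j ≠ a0 ∧ j ≠ b0 ∧ y = f j ∧ adT D.T m j = true) := by
      intro m hm y hy
      have hmn : m < D.T.n := by
        rcases hm with h | h
        · rw [h]; exact ha
        · rw [h]; exact hb
      rcases hy with ⟨j, hj, hj2, hy⟩ | ⟨e, he1, he2, hy⟩
      · have h6 : m ≠ j := by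
          rcases hm with h | h
          · rw [h]; exact hj2.1.symm
          · rw [h]; exact hj2.2.symm
        refine ⟨by rw [hy]; exact hinj2 m j hmn hj h6, ?_⟩
        intro h7
        rw [hy] at h7
        exact ⟨j, hj, hj2.1, hj2.2, hy, hadj m j hmn hj h7⟩
      · obtain ⟨⟨c, d⟩, hcd⟩ : ∃ p, D.T.el[e]? = some p := ⟨_, List.getElem?_eq_getElem he1⟩
        obtain ⟨w1, w2, w3, w4⟩ := hdis e c d hcd he2
        obtain ⟨_, _, _, _, h6⟩ := hW.pth e c d hcd
        have h7 := h6 y hy m hmn
        refine ⟨h7.1.symm, ?_⟩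
        intro h8
        exfalso
        refine h7.2 ?_ ?_ h8.symm
        · rcases hm with h | h
          · rw [h]; exact w1
          · rw [h]; exact w3
        · rcases hm with h | h
          · rw [h]; exact w2
          · rw [h]; exact w4
    have hPL : ∀ x ∈ PL, x ∈ P e0 := fun x hx => by rw [hP]; exact List.mem_append_left _ hx
    have hPR : ∀ x ∈ PR, x ∈ P e0 := fun x hx => by
      rw [hP]; exact List.mem_append_right _ (List.mem_cons_of_mem _ hx)
    have hC1 : CE G (S0 ∪ LS (f a0 :: PL)) := by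
      refine h4 V G S0 (f a0 :: PL) hC0 hA1 ?_ ?_ ?_
      · intro x hx hxS
        rcases List.mem_cons.1 hx with h | h
        · exact (hend a0 (Or.inl rfl) x hxS).1 h.symm
        · exact (hin x (hPL x h) x hxS).1 rfl
      · intro x hx y hy hxy
        rcases List.mem_cons.1 hx with h | h
        · rw [h]; rfl
        · exact absurd hxy (hin x (hPL x h) y hy).2
      · intro x hx y hy y' hy' hxy hxy'
        rcases List.mem_cons.1 hx with h | h
        · rw [h] at hxy hxy'
          obtain ⟨j, hj, _, hj2, hyj, hj3⟩ := (hend a0 (Or.inl rfl) y hy).2 hxy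
          obtain ⟨j', hj', _, hj2', hyj', hj3'⟩ := (hend a0 (Or.inl rfl) y' hy').2 hxy'
          rw [hyj, hyj', u1 j j' hj hj' hj2 hj2' hj3 hj3']
        · exact absurd hxy (hin x (hPL x h) y hy).2
    have hmem : ∀ x ∈ PR.reverse, x ∈ PR := fun x hx => List.mem_reverse.1 hx
    have hcr : ∀ x ∈ PR, ∀ y ∈ LS (f a0 :: PL), x ≠ y ∧ ¬ G.Adj x y := by
      intro x hx y hy
      have h6 := hcut y hy x (List.mem_append_left _ hx)
      exact ⟨h6.1.symm, fun h => h6.2 h.symm⟩
    have hcb : ∀ y ∈ LS (f a0 :: PL), f b0 ≠ y ∧ ¬ G.Adj (f b0) y := by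
      intro y hy
      have h6 := hcut y hy (f b0) (List.mem_append_right _ (by simp))
      exact ⟨h6.1.symm, fun h => h6.2 h.symm⟩
    have hC2 : CE G (S0 ∪ LS (f a0 :: PL) ∪ LS (f b0 :: PR.reverse)) := by
      refine h4 V G _ (f b0 :: PR.reverse) hC1 hA2 ?_ ?_ ?_
      · intro x hx hxS
        rcases List.mem_cons.1 hx with h | h
        · rcases hxS with h7 | h7
          · exact (hend b0 (Or.inr rfl) x h7).1 h.symm
          · exact (hcb x h7).1 h.symm
        · rcases hxS with h7 | h7
          · exact (hin x (hPR x (hmem x h)) x h7).1 rfl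
          · exact (hcr x (hmem x h) x h7).1 rfl
      · intro x hx y hy hxy
        rcases List.mem_cons.1 hx with h | h
        · rw [h]; rfl
        · rcases hy with h7 | h7
          · exact absurd hxy (hin x (hPR x (hmem x h)) y h7).2
          · exact absurd hxy (hcr x (hmem x h) y h7).2
      · intro x hx y hy y' hy' hxy hxy'
        rcases List.mem_cons.1 hx with h | h
        · rw [h] at hxy hxy'
          rcases hy with h7 | h7
          · rcases hy' with h8 | h8
            · obtain ⟨j, hj, hj2, _, hyj, hj3⟩ := (hend b0 (Or.inr rfl) y h7).2 hxy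
              obtain ⟨j', hj', hj2', _, hyj', hj3'⟩ := (hend b0 (Or.inr rfl) y' h8).2 hxy'
              rw [hyj, hyj', u2 j j' hj hj' hj2 hj2' hj3 hj3']
            · exact absurd hxy' (hcb y' h8).2
          · exact absurd hxy (hcb y h7).2
        · rcases hy with h7 | h7
          · exact absurd hxy (hin x (hPR x (hmem x h)) y h7).2
          · exact absurd hxy (hcr x (hmem x h) y h7).2
    refine h5 V G G _ _ hC2 ?_ (fun _ _ _ _ _ => Iff.rfl)
    intro x hx
    have hxz : x ≠ z := hx
    rcases hW.cov x with ⟨j, hj, hxj⟩ | ⟨e, he1, hx1⟩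
    · by_cases h6 : j = a0
      · refine Or.inl (Or.inr ?_)
        rw [hxj, h6]
        exact List.mem_cons_self
      · by_cases h7 : j = b0
        · refine Or.inr ?_
          rw [hxj, h7]
          exact List.mem_cons_self
        · exact Or.inl (Or.inl (Or.inl ⟨j, hj, ⟨h6, h7⟩, hxj⟩))
    · by_cases h6 : e = e0
      · rw [h6, hP] at hx1
        rcases List.mem_append.1 hx1 with h7 | h7
        · exact Or.inl (Or.inr (List.mem_cons_of_mem _ h7))
        · rcases List.mem_cons.1 h7 with h8 | h8
          · exact absurd h8 hxz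
          · exact Or.inr (List.mem_cons_of_mem _ (List.mem_reverse.2 h8))
      · exact Or.inl (Or.inl (Or.inr ⟨e, he1, h6, hx1⟩))

end Pool.Agent.Helper24.FF
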